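import Mathlib

set_option autoImplicit false

namespace Pool.Agent.Results.MP_e7dc11_co.Counter

/-- Symmetric configuration `v_3`; `I x j` means that point `x` lies in block `j`. -/
def IsConfig {v : ℕ} (I : Fin v → Fin v → Prop) : Prop :=
  (∀ j, {x | I x j}.ncard = 3) ∧ (∀ x, {j | I x j}.ncard = 3) ∧
  ∀ x y j k, x ≠ y → I x j → I y j → I x k → I y k → j = k

/-- Adjacency in the associated graph `K`. -/
def Adj {v : ℕ} (I : Fin v → Fin v → Prop) (x y : Fin v) : Prop := x ≠ y ∧ ∃ j, I x j ∧ I y j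

/-- An orientation: `ω j` is a cyclic order (a 3-cycle) on the three points of block `j`. -/
def IsOrient {v : ℕ} (I : Fin v → Fin v → Prop) (ω : Fin v → Fin v → Fin v) : Prop :=
  ∀ j x, I x j → I (ω j x) j ∧ ω j x ≠ x ∧ ω j (ω j (ω j x)) = x

/-- A rotation system of `K`: `ρ u` permutes the neighbours of `u` cyclically. -/
def IsRot {v : ℕ} (I : Fin v → Fin v → Prop) (ρ : Fin v → Fin v → Fin v) : Prop :=
  ∀ u w, Adj I u w → Adj I u (ρ u w) ∧ ∀ w', Adj I u w' → ∃ k : ℕ, (ρ u)^[k] w = w'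

/-- Face tracing on darts; the faces of the embedding given by `ρ` are the orbits of this map. -/
def face {v : ℕ} (ρ : Fin v → Fin v → Fin v) (d : Fin v × Fin v) : Fin v × Fin v := (d.2, ρ d.2 d.1)

/-- Upper embeddable in the orientation `ω`: a rotation system in which every block triangle,
traversed in the cyclic order `ω`, is a face, and all remaining darts lie on one face. -/
def UpperEmb {v : ℕ} (I : Fin v → Fin v → Prop) (ω : Fin v → Fin v → Fin v) : Prop :=
  ∃ ρ, IsRot I ρ ∧ (∀ j x, I x j → face ρ (x, ω j x) = (ω j x, ω j (ω j x))) ∧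
    ∀ j x, I x j → ∀ k y, I y k → ∃ m : ℕ, (face ρ)^[m] (ω j x, x) = (ω k y, y)

def B1 : Fin 33 → Fin 3 → Fin 33 := ![![0, 1, 3], ![0, 2, 4], ![1, 2, 5], ![3, 4, 12], ![0, 19, 26], ![1, 6, 8], ![6, 7, 9], ![7, 8, 10], ![8, 9, 11], ![9, 10, 5], ![10, 11, 6], ![11, 5, 7], ![2, 13, 15], ![13, 14, 16], ![14, 15, 17], ![15, 16, 18], ![16, 17, 12], ![17, 18, 13], ![18, 12, 14], ![3, 20, 22], ![20, 21, 23], ![21, 22, 24], ![22, 23, 25], ![23, 24, 19], ![24, 25, 20], ![25, 19, 21], ![4, 27, 29], ![27, 28, 30], ![28, 29, 31], ![29, 30, 32], ![30, 31, 26], ![31, 32, 27], ![32, 26, 28]]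
def B2 : Fin 33 → Fin 3 → Fin 33 := ![![3, 1, 0], ![0, 2, 4], ![1, 2, 5], ![3, 4, 12], ![0, 19, 26], ![1, 6, 8], ![6, 7, 9], ![7, 8, 10], ![8, 9, 11], ![9, 10, 5], ![10, 11, 6], ![11, 5, 7], ![2, 13, 15], ![13, 14, 16], ![14, 15, 17], ![15, 16, 18], ![16, 17, 12], ![17, 18, 13], ![18, 12, 14], ![3, 20, 22], ![20, 21, 23], ![21, 22, 24], ![22, 23, 25], ![23, 24, 19], ![24, 25, 20], ![25, 19, 21], ![4, 27, 29], ![27, 28, 30], ![28, 29, 31], ![29, 30, 32], ![30, 31, 26], ![31, 32, 27], ![32, 26, 28]]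
def bl : Fin 33 → Fin 3 → Fin 33 := ![![0, 1, 4], ![0, 2, 5], ![1, 2, 12], ![0, 3, 19], ![1, 3, 26], ![2, 9, 11], ![5, 6, 10], ![6, 7, 11], ![5, 7, 8], ![6, 8, 9], ![7, 9, 10], ![8, 10, 11], ![3, 16, 18], ![12, 13, 17], ![13, 14, 18], ![12, 14, 15], ![13, 15, 16], ![14, 16, 17], ![15, 17, 18], ![4, 23, 25], ![19, 20, 24], ![20, 21, 25], ![19, 21, 22], ![20, 22, 23], ![21, 23, 24], ![22, 24, 25], ![4, 30, 32], ![26, 27, 31], ![27, 28, 32], ![26, 28, 29], ![27, 29, 30], ![28, 30, 31], ![29, 31, 32]]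
def dep : Fin 33 → ℕ := ![0, 1, 1, 1, 1, 2, 2, 3, 2, 3, 3, 3, 2, 2, 3, 2, 3, 3, 3, 1, 2, 2, 2, 2, 2, 2, 1, 2, 2, 2, 2, 2, 2]
def J (x j : Fin 33) : Prop := x = B1 j 0 ∨ x = B1 j 1 ∨ x = B1 j 2
instance (x j : Fin 33) : Decidable (J x j) := inferInstanceAs (Decidable (_ ∨ _ ∨ _))
instance (x y : Fin 33) : Decidable (Adj J x y) := inferInstanceAs (Decidable (_ ∧ _))
def om (B : Fin 33 → Fin 3 → Fin 33) (j x : Fin 33) : Fin 33 :=
  if x = B j 0 then B j 1 else if x = B j 1 then B j 2 else B j 0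
def rho (u w : Fin 33) : Fin 33 := Fin.ofNat 33 ((5706019256217590043158095646071164291814292507954607975808389394524724157178328062931004108017730595882197892173876560421385540863375112779342406274678230203764045551460110143407575659939053602900200481893272408954887730253744359167332524619325617598666298218495427911613123841546678436852394567901031621303397749689263983602756299316733298116137891811942798458056753336219083365940654285562737642174399571695414011918794254480578515264485506800815800384350958085032403545774311207718919697491887903130789768053319376027133223281752711538721330483639246009241797180315635096434190254610181679693674075545587053125075017698560671830963076418412679133836746927751028667163252810660531215674635713291538261717320272412711354186662960836942057247476849194673246256934883104795777888027435310461794408023306294173307258168176415949023150354200347139044727997213230110593335091739549420727366027568439587359403966264554275306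59168754730451075954474615699792582415647912858591490197904588694098804447479698330809781369138561766288335999399591408586752814297804296635573892604113663866237820770911971517771051553132282157733298102343648959601139344195347775588916502594834665035799696937240310149648494013671176636937163081335726112422260300032339420366953934178920496791658038989916134555467350424993846922023499306849250827944401249105651818537820447020489401797950683371217654956878648313036881630151925371033675569144946559727490506591479159256103398584848199173732361619342222509537176655764742370927801069196884536306186967359884601161516666305309731080664178637979925802144911040839481955956301546193767683160043919987616930874340513246550467982872145372055366359919577638921877317759863266925560890950266448710672995411541387911558899445343205597956326629081011766976210739883323584095617566318534355363762240885550250533527028695249538622515524577315477734944107653502855468456148207651023976434502248704258188562073709387885709981227124771635575769020039617159424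 >>> (6 * (33 * u.val + w.val))) % 64)

theorem nc {α : Type} [Fintype α] (p : α → Prop) [DecidablePred p] :
    {i | p i}.ncard = (Finset.univ.filter p).card := by
  rw [← Set.ncard_coe_finset]; congr 1; ext; simp

theorem pos : UpperEmb J (om B1) := by
  refine ⟨rho, fun u w h => ?_, by decide +kernel, fun j x hx k y hy => ?_⟩
  · have : ∀ u w, Adj J u w → Adj J u (rho u w) ∧ ∀ w', Adj J u w' → ∃ k < 6, (rho u)^[k] w = w' := by
      decide +kernel
    exact ⟨(this u w h).1, fun w' h' => ((this u w h).2 w' h').imp fun _ h => h.2⟩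
  · have h : ∀ d ∈ List.iterate (face rho) (1, 0) 99, ∃ m ≤ 99, (face rho)^[m] (1, 0) = d := by
      intro d hd
      obtain ⟨m, hm, e⟩ := List.mem_iterate.1 hd
      exact ⟨m, hm.le, e.symm⟩
    have h2 : ∀ j x, J x j → (om B1 j x, x) ∈ List.iterate (face rho) (1, 0) 99 := by decide +kernel
    have h3 : (face rho)^[99] (1, 0) = (1, 0) := by decide +kernel
    obtain ⟨a, ha, e⟩ := h _ (h2 j x hx)
    obtain ⟨b, -, f⟩ := h _ (h2 k y hy)
    refine ⟨b + (99 - a), ?_⟩
    rw [← e, ← f, ← Function.iterate_add_apply, show b + (99 - a) + a = b + 99 by omega,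
      Function.iterate_add_apply, h3]

theorem closed {α : Type} (h : α → α) (S : α → Prop) (hS : ∀ x, S x → S (h x)) (k : ℕ) (x : α)
    (hx : S x) : S (h^[k] x) := by
  induction k with
  | zero => exact hx
  | succ k ih => rw [Function.iterate_succ_apply']; exact hS _ ih

theorem six {α : Type} (σ : α → α) (e : Fin 6 → α) (he : Function.Injective e)
    (h1 : ∀ i, ∃ j, σ (e i) = e j) (h2 : ∀ i j, ∃ k : ℕ, σ^[k] (e i) = e j)
    (a : σ (e 0) = e 1) (b : σ (e 2) = e 3) (c : σ (e 4) = e 5) :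
    ∃ r : Bool, σ (e 1) = e (if r then 2 else 4) ∧ σ (e 3) = e (if r then 4 else 0) ∧
      σ (e 5) = e (if r then 0 else 2) := by
  choose t ht using h1
  have key : ∀ x y z : Fin 6, (∃ r : Bool, x = (if r then 2 else 4) ∧ y = (if r then 4 else 0) ∧
      z = (if r then 0 else 2)) ∨ ∃ m < 64, (∃ i : Fin 6, Nat.testBit m i) ∧
      (∃ i : Fin 6, ¬ Nat.testBit m i) ∧ ∀ i : Fin 6, Nat.testBit m i →
        Nat.testBit m (![1, x, 3, y, 5, z] i : Fin 6) := by decide +kernel
  rcases key (t 1) (t 3) (t 5) with ⟨r, x, y, z⟩ | ⟨m, -, ⟨i, hi⟩, ⟨j, hj⟩, h⟩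
  · exact ⟨r, by rw [ht, x], by rw [ht, y], by rw [ht, z]⟩
  · have e1 : ![1, t 1, 3, t 3, 5, t 5] = t := by
      rw [ht] at a b c
      ext i; fin_cases i <;> simp [he a, he b, he c]
    rw [e1] at h
    obtain ⟨k, hk⟩ := h2 i j
    obtain ⟨l, a1, a2⟩ := closed σ (fun w => ∃ l : Fin 6, w = e l ∧ Nat.testBit m l = true)
      (by rintro _ ⟨l, rfl, hl⟩; exact ⟨t l, ht l, h l hl⟩) k (e i) ⟨i, rfl, hi⟩
    rw [hk] at a1
    exact absurd (he a1 ▸ a2) hj

def st (b : Bool) (f : ℕ) : ℕ := ((if b then 29433425492555999395413736364656570960983667387912170397819183624912707389173772880301901559721409857937782962893612936592869009472300669913067188666072939608352421447886127549539940108144161298198022267660044 else 30730003758877825798904296752007421465748397320837631789622522293070621602053315842839097808811148447100993451763066026148623290318401599477395929710285388494563694564861578941892728626135058710481924580901326) >>> (7 * f)) % 128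
def N (u : Fin 33) (i : Fin 3) : Fin 33 := om B2 (bl u i) u
def P (u : Fin 33) (i : Fin 3) : Fin 33 := om B2 (bl u i) (N u i)
def E (u : Fin 33) : Fin 6 → Fin 33 := ![P u 0, N u 0, P u 1, N u 1, P u 2, N u 2]
def dart (f : ℕ) : Fin 33 × Fin 33 := (N (Fin.ofNat 33 (f / 3)) (Fin.ofNat 3 f), Fin.ofNat 33 (f / 3))
def eA (i : ℕ) : ℕ := [15, 36, 57, 78].getD i 0
def tA (i : ℕ) : ℕ := [7, 13, 2, 57].getD i 0
def eB (i : ℕ) : ℕ := [24, 45, 66, 87].getD i 0
def tB (i : ℕ) : ℕ := [5, 8, 11, 14].getD i 0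
def orb (h : ℕ → ℕ) (lo hi : ℕ) : ℕ → ℕ → ℕ
  | 0, _ => 0
  | k + 1, f => if lo ≤ f ∧ f < hi then 2 ^ f ||| orb h lo hi k (h f) else 0
def loc (l : List Bool) (o f : ℕ) : ℕ := st (l.getD (f / 3 - o) false) f
def G (h : ℕ → ℕ) (i A B C : ℕ) : Prop :=
  ((∃ f < 99, C.testBit f) ∧ ∀ f < 99, C.testBit f → 15 + 21 * i ≤ f ∧ f < 36 + 21 * i ∧ C.testBit (h f)) ∨
  (A.testBit (eA i) ∧ B.testBit (eB i) ∧
    (∀ f < 99, A.testBit f → 15 + 21 * i ≤ f ∧ f < 36 + 21 * i ∧ (A.testBit (h f) ∨ h f = tA i)) ∧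
    ∀ f < 99, B.testBit f → 15 + 21 * i ≤ f ∧ f < 36 + 21 * i ∧ (B.testBit (h f) ∨ h f = tB i))
instance (h : ℕ → ℕ) (i A B C : ℕ) : Decidable (G h i A B C) := by unfold G; infer_instance
def G' (h : ℕ → ℕ) (i A B : ℕ) : Prop := G h i A B ((2 ^ (36 + 21 * i) - 2 ^ (15 + 21 * i)) ^^^ (A ||| B))
instance (h : ℕ → ℕ) (i A B : ℕ) : Decidable (G' h i A B) := by unfold G'; infer_instance

theorem gad : ∀ i < 4, ∀ a b c d e f g : Bool, G' (loc [a, b, c, d, e, f, g] (5 + 7 * i)) i
    (orb (loc [a, b, c, d, e, f, g] (5 + 7 * i)) (15 + 21 * i) (36 + 21 * i) 21 (eA i))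
    (orb (loc [a, b, c, d, e, f, g] (5 + 7 * i)) (15 + 21 * i) (36 + 21 * i) 21 (eB i)) := by
  decide +kernel

def red (h : ℕ → ℕ) (f : ℕ) : ℕ :=
  if f < 15 then (if h f = eB 0 then tB 0 else if h f = eB 1 then tB 1 else if h f = eB 2 then tB 2
    else if h f = eB 3 then tB 3 else h f)
  else if f = eA 0 then tA 0 else if f = eA 1 then tA 1 else if f = eA 2 then tA 2 else tA 3
def nd (S x : ℕ) : Prop := S.testBit x ∧ (x < 15 ∨ ∃ i < 4, x = eA i)
instance (S x : ℕ) : Decidable (nd S x) := by unfold nd; infer_instance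
def K (h : ℕ → ℕ) (S : ℕ) : Prop :=
  S.testBit 0 ∧ (∃ t < 15, ¬ S.testBit t) ∧
  (∀ f < 15, S.testBit f → nd S (h f) ∨ ∃ i < 4, h f = eB i ∧ nd S (tB i)) ∧
  ∀ i < 4, S.testBit (eA i) → nd S (tA i)
instance (h : ℕ → ℕ) (S : ℕ) : Decidable (K h S) := by unfold K; infer_instance

theorem core : ∀ a b c d e : Bool, K (loc [a, b, c, d, e] 0)
    (orb (red (loc [a, b, c, d, e] 0)) 0 99 19 0) := by decide +kernel

theorem lt (b : Bool) (f : ℕ) : f < 99 → st b f < 99 := by revert f b; decide +kernel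

theorem fin (r : ℕ → Bool) (H : ∀ f < 99, ∀ g < 99, ∃ k : ℕ, (fun f => st (r (f / 3)) f)^[k] f = g) :
    False := by
  have l1 : ∀ i f, 15 + 21 * i ≤ f → f < 36 + 21 * i → loc [r (5 + 7 * i), r (5 + 7 * i + 1),
      r (5 + 7 * i + 2), r (5 + 7 * i + 3), r (5 + 7 * i + 4), r (5 + 7 * i + 5), r (5 + 7 * i + 6)]
      (5 + 7 * i) f = st (r (f / 3)) f := by
    intro i f h1 h2
    obtain ⟨k, hk, e⟩ : ∃ k < 7, f / 3 = 5 + 7 * i + k := ⟨f / 3 - (5 + 7 * i), by omega, by omega⟩
    rw [loc, e, Nat.add_sub_cancel_left]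
    interval_cases k <;> rfl
  have l2 : ∀ f < 15, loc [r 0, r 1, r 2, r 3, r 4] 0 f = st (r (f / 3)) f := by
    intro f h; interval_cases f <;> rfl
  have g : ∀ i, i < 4 → ∃ A B : ℕ, A.testBit (eA i) ∧ B.testBit (eB i) ∧
      (∀ f < 99, A.testBit f → 15 ≤ f ∧ (A.testBit (st (r (f / 3)) f) ∨ st (r (f / 3)) f = tA i)) ∧
      ∀ f < 99, B.testBit f → 15 ≤ f ∧ (B.testBit (st (r (f / 3)) f) ∨ st (r (f / 3)) f = tB i) := by
    intro i hi
    rcases gad i hi (r (5 + 7 * i)) (r (5 + 7 * i + 1)) (r (5 + 7 * i + 2)) (r (5 + 7 * i + 3))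
      (r (5 + 7 * i + 4)) (r (5 + 7 * i + 5)) (r (5 + 7 * i + 6)) with ⟨⟨f, hf, h1⟩, h2⟩ | ⟨a, b, c, d⟩
    · obtain ⟨k, hk⟩ := H f hf 0 (by norm_num)
      have := closed (fun f => st (r (f / 3)) f) (fun x => x < 99 ∧ Nat.testBit _ x = true)
        (fun x hx => ⟨lt _ _ hx.1, by
          obtain ⟨p, q, s⟩ := h2 x hx.1 hx.2
          rwa [l1 i x p q] at s⟩) k f ⟨hf, h1⟩
      rw [hk] at this
      have := (h2 0 this.1 this.2).1
      omega
    · refine ⟨_, _, a, b, fun x hx h => ?_, fun x hx h => ?_⟩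
      · obtain ⟨p, q, s⟩ := c x hx h
        exact ⟨by omega, by rwa [l1 i x p q] at s⟩
      · obtain ⟨p, q, s⟩ := d x hx h
        exact ⟨by omega, by rwa [l1 i x p q] at s⟩
  choose! A B a b c d using g
  obtain ⟨S, k0, ⟨t, ht, kt⟩, k1, k2⟩ : ∃ S, K (loc [r 0, r 1, r 2, r 3, r 4] 0) S := ⟨_, core _ _ _ _ _⟩
  obtain ⟨k, hk⟩ := H 0 (by norm_num) t (by omega)
  have n1 : ∀ x, nd S x → (x < 15 ∧ S.testBit x) ∨ ∃ i < 4, (S.testBit (eA i) ∧ (A i).testBit x) ∨
      (nd S (tB i) ∧ (B i).testBit x) := by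
    rintro x ⟨p, q | ⟨i, hi, rfl⟩⟩
    · exact Or.inl ⟨q, p⟩
    · exact Or.inr ⟨i, hi, Or.inl ⟨p, a i hi⟩⟩
  have := closed (fun f => st (r (f / 3)) f) (fun x => x < 99 ∧ ((x < 15 ∧ S.testBit x) ∨
      ∃ i < 4, (S.testBit (eA i) ∧ (A i).testBit x) ∨ (nd S (tB i) ∧ (B i).testBit x)))
    (by
      rintro x ⟨hx, ⟨p, q⟩ | ⟨i, hi, ⟨p, q⟩ | ⟨p, q⟩⟩⟩ <;> refine ⟨lt _ _ hx, ?_⟩
      · rcases k1 x p q with h | ⟨i, hi, h, h'⟩ <;> rw [l2 x p] at h
        · exact n1 _ h
        · exact Or.inr ⟨i, hi, Or.inr ⟨h', h ▸ b i hi⟩⟩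
      · rcases (c i hi x hx q).2 with h | h
        · exact Or.inr ⟨i, hi, Or.inl ⟨p, h⟩⟩
        · exact h ▸ n1 _ (k2 i hi p)
      · rcases (d i hi x hx q).2 with h | h
        · exact Or.inr ⟨i, hi, Or.inr ⟨p, h⟩⟩
        · exact h ▸ n1 _ p) k 0 ⟨by norm_num, Or.inl ⟨by norm_num, k0⟩⟩
  rw [hk] at this
  rcases this with ⟨hx, ⟨-, q⟩ | ⟨i, hi, ⟨-, q⟩ | ⟨-, q⟩⟩⟩
  · exact kt q
  · have := (c i hi t hx q).1; omega
  · have := (d i hi t hx q).1; omega

theorem neg : ¬ UpperEmb J (om B2) := by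
  rintro ⟨ρ, h1, h2, h3⟩
  have a1 : ∀ u, Function.Injective (E u) := by decide +kernel
  have a2 : ∀ u w, Adj J u w ↔ ∃ i, w = E u i := by decide +kernel
  have a3 : ∀ u i, J (P u i) (bl u i) ∧ om B2 (bl u i) (P u i) = u ∧ J u (bl u i) := by decide +kernel
  have a4 : ∀ u i, ρ u (P u i) = N u i := fun u i => by
    have := congrArg Prod.snd (h2 _ _ (a3 u i).1)
    simpa only [face, (a3 u i).2.1, N] using this
  choose r hr using fun u => six (ρ u) (E u) (a1 u)
    (fun i => (a2 _ _).1 (h1 u _ ((a2 _ _).2 ⟨i, rfl⟩)).1)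
    (fun i j => (h1 u _ ((a2 _ _).2 ⟨i, rfl⟩)).2 _ ((a2 _ _).2 ⟨j, rfl⟩)) (a4 u 0) (a4 u 1) (a4 u 2)
  have a5 : ∀ (b : Bool) f, f < 99 → dart (st b f) = ((dart f).2, E (dart f).2
      (![if b then 2 else 4, if b then 4 else 0, if b then 0 else 2] (Fin.ofNat 3 f))) ∧
      (dart f).1 = E (dart f).2 (![1, 3, 5] (Fin.ofNat 3 f)) := by decide +kernel
  have a6 : ∀ f, f < 99 → face ρ (dart f) = dart (st (r (Fin.ofNat 33 (f / 3))) f) := by
    intro f hf
    rw [(a5 _ f hf).1, face, (a5 true f hf).2]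
    obtain ⟨x, y, z⟩ := hr (dart f).2
    generalize Fin.ofNat 3 f = i
    fin_cases i
    exacts [congrArg _ x, congrArg _ y, congrArg _ z]
  have a7 : ∀ f < 99, ∀ g < 99, dart f = dart g → f = g := by decide +kernel
  refine fin (fun u => r (Fin.ofNat 33 u)) fun f hf g hg => ?_
  obtain ⟨m, hm⟩ := h3 _ _ (a3 (Fin.ofNat 33 (f / 3)) (Fin.ofNat 3 f)).2.2 _ _
    (a3 (Fin.ofNat 33 (g / 3)) (Fin.ofNat 3 g)).2.2
  have : ∀ k, (fun f => st (r (Fin.ofNat 33 (f / 3))) f)^[k] f < 99 ∧
      (face ρ)^[k] (dart f) = dart ((fun f => st (r (Fin.ofNat 33 (f / 3))) f)^[k] f) := by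
    intro k
    induction k with
    | zero => exact ⟨hf, rfl⟩
    | succ k ih =>
      simp only [Function.iterate_succ_apply']
      exact ⟨lt _ _ ih.1, by rw [ih.2, a6 _ ih.1]⟩
  exact ⟨m, a7 _ (this m).1 _ hg ((this m).2.symm.trans hm)⟩

theorem conn (i k : Fin 33) : Relation.ReflTransGen (Adj J) i k := by
  have h : ∀ i, i ≠ 0 → ∃ k, dep k < dep i ∧ Adj J i k ∧ Adj J k i := by decide +kernel
  have g : ∀ d i, dep i < d → Relation.ReflTransGen (Adj J) i 0 ∧ Relation.ReflTransGen (Adj J) 0 i := by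
    intro d
    induction d with
    | zero => intro i h; omega
    | succ d ih =>
      intro i hi
      by_cases e : i = 0
      · rw [e]; exact ⟨.refl, .refl⟩
      · obtain ⟨k, a, b, c⟩ := h i e
        exact ⟨.head b (ih k (by omega)).1, .tail (ih k (by omega)).2 c⟩
  exact (g _ i (Nat.lt_succ_self _)).1.trans (g _ k (Nat.lt_succ_self _)).2

/-- A connected configuration `33_3` that is upper embeddable in one orientation but not in another. -/
theorem result : ∃ (v : ℕ) (I : Fin v → Fin v → Prop) (ω₁ ω₂ : Fin v → Fin v → Fin v),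
    IsConfig I ∧ (∀ x y, Relation.ReflTransGen (Adj I) x y) ∧ IsOrient I ω₁ ∧ IsOrient I ω₂ ∧
    UpperEmb I ω₁ ∧ ¬ UpperEmb I ω₂ := by
  refine ⟨33, J, om B1, om B2, ⟨?_, ?_, ?_⟩, conn, ?_, ?_, pos, neg⟩
  · simp only [nc]; decide +kernel
  · simp only [nc]; decide +kernel
  · have : ∀ i j, J i j → ∀ i', J i' j → i ≠ i' → ∀ j', J i j' → J i' j' → j = j' := by
      decide +kernel
    exact fun i i' j j' h a b c d => this i j a i' b h j' c d
  · unfold IsOrient; decide +kernel
  · unfold IsOrient; decide +kernel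

end Pool.Agent.Results.MP_e7dc11_co.Counter
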